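import Pool.Agent.K3h30.RS.Stm
import Pool.Agent.TH888.B1.Roots

/-!
# The sum of `1 / N v` over the prime ideals which split completely diverges
-/

set_option autoImplicit false

namespace Pool.Agent.K3h14.RS

open NumberField IsDedekindDomain Filter Topology Pool.Agent.K3h30.RS Pool.Agent.W401.Cheb
open Pool.Agent.TH888.B1

/-- If the Frobenius elements over `p` are trivial, then `x ^ p - x` is in all primes over `p`. -/
theorem pow_sub_mem (E : Type) [Field E] [NumberField E] [IsGalois ℚ E] (p : ℕ)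
    [hp : Fact p.Prime] (ht : TorAt E p) (hx : xp E 1 p ≠ 0) (P : Ideal (𝓞 E)) (hP : P.IsPrime)
    (hpP : ((p : ℕ) : 𝓞 E) ∈ P) (x : 𝓞 E) : x ^ p - x ∈ P := by
  classical
  obtain ⟨φ₀, hφ₀⟩ : ∃ φ₀ : 𝓞 E →+* AlgebraicClosure (ZMod p), HasFrob p φ₀ 1 := by
    unfold xp at hx
    rw [dif_pos hp.out] at hx
    obtain ⟨⟨⟨φ₀, hφ₀⟩⟩, -⟩ := Nat.card_ne_zero.1 hx
    exact ⟨φ₀, hφ₀⟩
  have hP0 : P ≠ ⊥ := by
    intro h0
    rw [h0, Ideal.mem_bot] at hpP
    exact hp.out.ne_zero (by exact_mod_cast hpP)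
  have hPm : P.IsMaximal := hP.isMaximal hP0
  let _ : Field (𝓞 E ⧸ P) := Ideal.Quotient.field P
  have hfin : Finite (𝓞 E ⧸ P) := Ring.HasFiniteQuotients.finiteQuotient hP0
  have hchar : CharP (𝓞 E ⧸ P) p := by
    rw [CharP.charP_iff_prime_eq_zero hp.out, ← map_natCast (Ideal.Quotient.mk P),
      Ideal.Quotient.eq_zero_iff_mem]
    exact hpP
  let _ : Algebra (ZMod p) (𝓞 E ⧸ P) := ZMod.algebra _ p
  have halg : Algebra.IsAlgebraic (ZMod p) (𝓞 E ⧸ P) := Algebra.IsAlgebraic.of_finite _ _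
  let ι : (𝓞 E ⧸ P) →ₐ[ZMod p] AlgebraicClosure (ZMod p) := IsAlgClosed.lift
  let ψ : 𝓞 E →+* AlgebraicClosure (ZMod p) := (ι : _ →+* _).comp (Ideal.Quotient.mk P)
  obtain ⟨τ, hτ, -⟩ := ht.2.1 φ₀ ψ
  have h1 : ψ x = ψ x ^ p := by
    rw [hτ x, ← hφ₀ (τ • x), one_smul]
  have h2 : ι (Ideal.Quotient.mk P (x ^ p - x)) = 0 := by
    change ψ (x ^ p - x) = 0
    rw [map_sub, map_pow, ← h1, sub_self]
  rw [map_eq_zero_iff ι ι.injective, Ideal.Quotient.eq_zero_iff_mem] at h2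
  exact h2

/-- The prime ideals over `p` of a field contained in `E` have norm `p`. -/
theorem absNorm_eq (E : Type) [Field E] [NumberField E] [IsGalois ℚ E] (p : ℕ)
    [hp : Fact p.Prime] (ht : TorAt E p) (hx : xp E 1 p ≠ 0) (K : Type) [Field K] [NumberField K]
    [Algebra K E] (P : Ideal (𝓞 K)) [hP : P.IsMaximal] (hpP : ((p : ℕ) : 𝓞 K) ∈ P) :
    Ideal.absNorm P = p := by
  classical
  have hP0 : P ≠ ⊥ := by
    intro h0
    rw [h0, Ideal.mem_bot] at hpP
    exact hp.out.ne_zero (by exact_mod_cast hpP)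
  obtain ⟨Q, hQm, hQ⟩ := Ideal.exists_maximal_ideal_liesOver_of_isIntegral (S := 𝓞 E) P
  have hover : P = Q.comap (algebraMap (𝓞 K) (𝓞 E)) := hQ.over
  let _ : Field (𝓞 K ⧸ P) := Ideal.Quotient.field P
  have hfin : Finite (𝓞 K ⧸ P) := Ring.HasFiniteQuotients.finiteQuotient hP0
  let _ := Fintype.ofFinite (𝓞 K ⧸ P)
  have hchar : CharP (𝓞 K ⧸ P) p := by
    rw [CharP.charP_iff_prime_eq_zero hp.out, ← map_natCast (Ideal.Quotient.mk P),
      Ideal.Quotient.eq_zero_iff_mem]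
    exact hpP
  have hroot : ∀ y : 𝓞 K ⧸ P, y ^ p = y := by
    intro y
    obtain ⟨x, rfl⟩ := Ideal.Quotient.mk_surjective y
    rw [← map_pow, Ideal.Quotient.eq, hover, Ideal.mem_comap, map_sub, map_pow]
    refine pow_sub_mem E p ht hx Q hQm.isPrime ?_ _
    have h3 : algebraMap (𝓞 K) (𝓞 E) ((p : ℕ) : 𝓞 K) ∈ Q := by
      rw [← Ideal.mem_comap, ← hover]
      exact hpP
    rwa [map_natCast] at h3
  have hcard : Fintype.card (𝓞 K ⧸ P) ≤ p := by
    have h4 : (Finset.univ : Finset (𝓞 K ⧸ P)) ⊆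
        (Polynomial.X ^ p - Polynomial.X : Polynomial (𝓞 K ⧸ P)).roots.toFinset := by
      intro y _
      rw [Multiset.mem_toFinset, Polynomial.mem_roots
        (FiniteField.X_pow_card_sub_X_ne_zero _ hp.out.one_lt)]
      simp [Polynomial.IsRoot.def, hroot y]
    have h5 := Finset.card_le_card h4
    rw [Finset.card_univ] at h5
    refine h5.trans ((Multiset.toFinset_card_le _).trans ((Polynomial.card_roots' _).trans ?_))
    rw [FiniteField.X_pow_card_sub_X_natDegree_eq _ hp.out.one_lt]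
  have hN : Ideal.absNorm P = Fintype.card (𝓞 K ⧸ P) := by
    rw [Ideal.absNorm_apply, Submodule.cardQuot_apply, Nat.card_eq_fintype_card]
  obtain ⟨n, hn⟩ := FiniteField.card (𝓞 K ⧸ P) p
  rw [hN]
  refine le_antisymm hcard ?_
  rw [hn.2]
  exact Nat.le_self_pow n.pos.ne' p

/-- Divisors of `p` are squarefree if `p` does not divide the discriminant. -/
theorem squarefree_of (L : Type) [Field L] [NumberField L] (p : ℕ) (hp : p.Prime)
    (hd : ¬ p ∣ (discr L).natAbs) (I : Ideal (𝓞 L)) (hI : ((p : ℕ) : 𝓞 L) ∈ I) :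
    Squarefree I := by
  intro x hx
  have hspan : (Ideal.span {(p : ℤ)}).map (algebraMap ℤ (𝓞 L)) = Ideal.span {((p : ℕ) : 𝓞 L)} := by
    rw [Ideal.map_span, Set.image_singleton]
    simp
  have hle : Ideal.span {((p : ℕ) : 𝓞 L)} ≤ I := by
    rw [Ideal.span_le, Set.singleton_subset_iff]
    exact hI
  have hm : (Ideal.span {(p : ℤ)}).IsMaximal :=
    PrincipalIdealRing.isMaximal_of_irreducible (Nat.prime_iff_prime_int.1 hp).irreducible
  have h0 : (Ideal.span {(p : ℤ)}) ≠ ⊥ := by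
    rw [Ne, Ideal.span_singleton_eq_bot]
    exact_mod_cast hp.ne_zero
  have h1 : x ^ 2 ∣ (Ideal.span {(p : ℤ)}).map (algebraMap ℤ (𝓞 L)) := by
    rw [pow_two, hspan]
    exact hx.trans (Ideal.dvd_iff_le.2 hle)
  have h2 := pow_sub_one_dvd_differentIdeal ℤ x 2 h0 h1
  rw [show 2 - 1 = 1 from rfl, pow_one] at h2
  have h3 : Ideal.absNorm x ∣ (discr L).natAbs := by
    rw [← NumberField.absNorm_differentIdeal (K := L) (𝒪 := 𝓞 L)]
    exact Ideal.absNorm_dvd_absNorm_of_le (Ideal.dvd_iff_le.1 h2)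
  have h4 : Ideal.absNorm x ∣ p ^ Module.finrank ℤ (𝓞 L) := by
    have h5 : Ideal.span {((p : ℕ) : 𝓞 L)} ≤ x :=
      hle.trans (Ideal.dvd_iff_le.1 ((dvd_mul_right x x).trans hx))
    have h6 := Ideal.absNorm_dvd_absNorm_of_le h5
    rwa [Ideal.absNorm_span_singleton, show ((p : ℕ) : 𝓞 L) = algebraMap ℤ (𝓞 L) (p : ℤ) by simp,
      Algebra.norm_algebraMap, Int.natAbs_pow, Int.natAbs_natCast] at h6
  have h7 : Nat.Coprime (p ^ Module.finrank ℤ (𝓞 L)) (discr L).natAbs :=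
    Nat.Coprime.pow_left _ ((Nat.Prime.coprime_iff_not_dvd hp).2 hd)
  have h8 : Ideal.absNorm x = 1 := Nat.eq_one_of_dvd_coprimes h7 h4 h3
  rw [Ideal.absNorm_eq_one_iff] at h8
  rw [h8, ← Ideal.one_eq_top]
  exact isUnit_one

/-- **S_DIV.** The sum of `1 / N v` over the prime ideals which split completely in `L`, outside a
finite set, is infinite. -/
theorem t_DIV : S_DIV := by
  intro F L _ _ _ _ _ bad hsum
  classical
  have hcl : IsAlgClosure ℚ (AlgebraicClosure L) :=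
    IsAlgClosure.ofAlgebraic ℚ L (AlgebraicClosure L)
  have hnorm : Normal ℚ (AlgebraicClosure L) := IsAlgClosure.normal ℚ (AlgebraicClosure L)
  have hgal : IsGalois ℚ (AlgebraicClosure L) := {}
  let E := IntermediateField.normalClosure ℚ L (AlgebraicClosure L)
  have : FiniteDimensional ℚ E := inferInstance
  have : NumberField E := {}
  have : IsGalois ℚ E := IsGalois.normalClosure ℚ L (AlgebraicClosure L)
  let _ : Algebra F E := ((algebraMap L E).comp (algebraMap F L)).toAlgebra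
  obtain ⟨D, hD, htor⟩ := torsor E
  set A : ℕ := D * (discr L).natAbs * ∏ v ∈ bad, Ideal.absNorm v.asIdeal with hA
  have hA0 : A ≠ 0 := by
    rw [hA]
    refine mul_ne_zero (mul_ne_zero hD.ne' (Int.natAbs_ne_zero.2 (discr_ne_zero L))) ?_
    refine Finset.prod_ne_zero_iff.2 fun v _ => ?_
    rw [Ne, Ideal.absNorm_eq_zero_iff]
    exact v.ne_bot
  have hfin : {p : ℕ | p ∣ A}.Finite :=
    (Set.finite_Iic A).subset fun p hp => Nat.le_of_dvd (Nat.pos_of_ne_zero hA0) hp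
  refine diverges_diff hfin (frob_diverges E 1) ?_
  have key : ∀ p ∈ {p : ℕ | p.Prime ∧ xp E 1 p ≠ 0} \ {p : ℕ | p ∣ A},
      ∃ v : {v : HeightOneSpectrum (𝓞 F) // v ∉ bad ∧ SplitsIn L v},
        Ideal.absNorm (v : HeightOneSpectrum (𝓞 F)).asIdeal = p := by
    rintro p ⟨⟨hp, hx⟩, hpA⟩
    have hpF : Fact p.Prime := ⟨hp⟩
    have hpA' : ¬ p ∣ A := hpA
    have hpD : ¬ p ∣ D := fun h => hpA' (hA ▸ ((h.mul_right _).mul_right _))
    have hpd : ¬ p ∣ (discr L).natAbs := fun h => hpA' (hA ▸ ((h.mul_left _).mul_right _))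
    have hpb : ¬ p ∣ ∏ v ∈ bad, Ideal.absNorm v.asIdeal := fun h => hpA' (hA ▸ h.mul_left _)
    have ht := htor p hpD
    have htop : Ideal.span {((p : ℕ) : 𝓞 F)} ≠ ⊤ := by
      intro h
      have h1 := Ideal.absNorm_span_singleton ((p : ℕ) : 𝓞 F)
      rw [h, Ideal.absNorm_top, show ((p : ℕ) : 𝓞 F) = algebraMap ℤ (𝓞 F) (p : ℤ) by simp,
        Algebra.norm_algebraMap, Int.natAbs_pow, Int.natAbs_natCast] at h1
      have h2 : Module.finrank ℤ (𝓞 F) ≠ 0 := Module.finrank_pos.ne'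
      exact (Nat.one_lt_pow h2 hp.one_lt).ne h1
    obtain ⟨P, hPm, hP⟩ := Ideal.exists_le_maximal _ htop
    have hpP : ((p : ℕ) : 𝓞 F) ∈ P := hP (Ideal.mem_span_singleton_self _)
    have hP0 : P ≠ ⊥ := by
      intro h0
      rw [h0, Ideal.mem_bot] at hpP
      exact hp.ne_zero (by exact_mod_cast hpP)
    have hN := absNorm_eq E p ht hx F P hpP
    refine ⟨⟨⟨P, hPm.isPrime, hP0⟩, ?_, ?_, ?_⟩, hN⟩
    · intro hbad
      apply hpb
      refine dvd_trans ?_ (Finset.dvd_prod_of_mem _ hbad)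
      change p ∣ Ideal.absNorm P
      rw [hN]
    · change Squarefree (P.map (algebraMap (𝓞 F) (𝓞 L)))
      refine squarefree_of L p hp hpd _ ?_
      have h3 := Ideal.mem_map_of_mem (algebraMap (𝓞 F) (𝓞 L)) hpP
      rwa [map_natCast] at h3
    · rintro Q ⟨v', hv', hQ⟩
      rw [Set.mem_singleton_iff] at hv'
      subst hv'
      change Ideal.absNorm Q.asIdeal = Ideal.absNorm P
      rw [hN]
      have hQm : Q.asIdeal.IsMaximal := Q.isPrime.isMaximal Q.ne_bot
      refine absNorm_eq E p ht hx L Q.asIdeal ?_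
      have h3 : algebraMap (𝓞 F) (𝓞 L) ((p : ℕ) : 𝓞 F) ∈ Q.asIdeal := by
        rw [← Ideal.mem_comap, hQ]
        exact hpP
      rwa [map_natCast] at h3
  choose g hg using key
  rw [← summable_subtype_iff_indicator]
  have hinj : Function.Injective
      (fun p : ({p : ℕ | p.Prime ∧ xp E 1 p ≠ 0} \ {p : ℕ | p ∣ A} : Set ℕ) => g p.1 p.2) := by
    intro p q hpq
    apply Subtype.ext
    have h1 := hg p.1 p.2
    have h2 := hg q.1 q.2
    have h3 : g p.1 p.2 = g q.1 q.2 := hpq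
    rw [← h1, ← h2, h3]
  refine (hsum.comp_injective hinj).congr fun p => ?_
  simp only [Function.comp_apply, hg p.1 p.2, one_div]

end Pool.Agent.K3h14.RS
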